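import Mathlib

/-!
Problem MP_f302e8_co (row C4; helper87, helper83): pure sparse gapsets of consecutive genera.
Definitions and linking statements.
-/

set_option autoImplicit false

namespace Pool.C4

open Finset

/-- gapsets -/
def IsGapset (G : Finset ℕ) : Prop :=
  0 ∉ G ∧ ∀ x y : ℕ, 0 < x → 0 < y → x + y ∈ G → x ∈ G ∨ y ∈ G

/-- `a < b` are consecutive elements of `G` -/
def Consec (G : Finset ℕ) (a b : ℕ) : Prop :=
  a ∈ G ∧ b ∈ G ∧ a < b ∧ ∀ c ∈ G, ¬ (a < c ∧ c < b)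

/-- consecutive elements differ by at most `κ` -/
def Sparse (κ : ℕ) (G : Finset ℕ) : Prop := ∀ a b, Consec G a b → b - a ≤ κ

/-- pure `κ`-sparse, with the conventions of the problem for `∅` and `{1}` -/
def PureSparse (κ : ℕ) (G : Finset ℕ) : Prop :=
  (G = ∅ ∧ κ = 0) ∨ (G = {1} ∧ κ = 1) ∨ (Sparse κ G ∧ ∃ a b, Consec G a b ∧ b - a = κ)

/-- the set `𝒢_κ(g)` of pure `κ`-sparse gapsets of genus `g` -/
def GS (κ g : ℕ) : Set (Finset ℕ) := {G | IsGapset G ∧ G.card = g ∧ PureSparse κ G}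

/-- admissible words of length `n` over `{1,…,q}` (position `i : Fin n` is the letter `i + 1`):
reflection rule for the shifts in `C`, and no `κ` consecutive letters below `q` -/
def OkWord (κ : ℕ) (C : Finset ℕ) (q n : ℕ) (w : Fin n → ℕ) : Prop :=
  (∀ i j : Fin n, ∀ c ∈ C, (i : ℕ) + j + c + 1 = n → q ≤ w i + w j) ∧
  (∀ a : ℕ, a + κ ≤ n → ∃ i : Fin n, a ≤ (i : ℕ) ∧ (i : ℕ) < a + κ ∧ w i = q)

open Classical in
/-- the finite set of admissible words -/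
noncomputable def words (κ : ℕ) (C : Finset ℕ) (q n : ℕ) : Finset (Fin n → ℕ) :=
  (Fintype.piFinset (fun _ : Fin n => Finset.Icc 1 q)).filter (fun w => OkWord κ C q n w)

/-- the weight of the admissible words of length `n` -/
noncomputable def W (κ : ℕ) (x : ℝ) (C : Finset ℕ) (q n : ℕ) : ℝ :=
  ∑ w ∈ words κ C q n, x ^ (∑ i, w i)

/-- the bound for the words: `A q` bounds the total weight of all admissible words over `{1,…,q}` -/
def WordBound (κ : ℕ) (x : ℝ) : Prop :=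
  ∃ (D : ℕ) (A : ℕ → ℝ), (∀ q, 0 ≤ A q) ∧
    Summable (fun q => x ^ (q + 2) * A (q + 2) * A (q + 1)) ∧
    ∀ C ⊆ Finset.range (κ * D), D ≤ C.card → 0 ∈ C → ∀ q, 1 ≤ q → ∀ N,
      ∑ n ∈ Finset.range N, W κ x C q n ≤ A q

/-- (helper83) the word bound holds at some `x` above the critical point of `κ + 1` -/
def WordsGoal : Prop := ∀ κ, 2 ≤ κ → ∃ x : ℝ, 0 < x ∧ x < 1 ∧
  1 < ∑ d ∈ Finset.Icc 2 (κ + 2), x ^ d ∧ WordBound κ x

/-- (helper87) upper bound -/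
def UpperGoal : Prop := ∀ κ, 2 ≤ κ → ∀ x : ℝ, 0 < x → x < 1 → WordBound κ x →
  ∃ K : ℝ, ∀ g, ((GS κ g).ncard : ℝ) * x ^ g ≤ K

/-- (helper87) lower bound -/
def LowerGoal : Prop := ∀ κ, 1 ≤ κ → ∀ y : ℝ, 0 < y → y ≤ 1 →
  1 ≤ ∑ d ∈ Finset.Icc 2 (κ + 2), y ^ d →
  ∃ c : ℝ, 0 < c ∧ ∀ g, κ + 2 ≤ g → c ≤ ((GS (κ + 1) (g + 1)).ncard : ℝ) * y ^ g

end Pool.C4
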