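import Pool.Agent.Lib.MP_f302e8_gs.Sum

/-!
Problem MP_f302e8_co (C4; helper87, helper83): final linking statements for the words.
-/

set_option autoImplicit false

namespace Pool.C4

open Finset

/-- uniform bound `K` for the total weight of the admissible words, all alphabets `{1,…,q}` -/
def WB (κ : ℕ) (x : ℝ) (D : ℕ) (K : ℝ) : Prop :=
  ∀ C ⊆ Finset.range (κ * D), D ≤ C.card → 0 ∈ C → ∀ q, 1 ≤ q → ∀ N,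
    ∑ n ∈ Finset.range N, W κ x C q n ≤ K

/-- (helper83) fixed `κ` -/
def WordsGoal2 : Prop := ∀ κ, 2 ≤ κ → ∃ (x y : ℝ) (D : ℕ) (K : ℝ), 0 < y ∧ y < x ∧ x < 1 ∧
  1 ≤ ∑ d ∈ Finset.Icc 2 (κ + 2), y ^ d ∧ 1 ≤ D ∧ WB κ x D K

/-- (helper83) uniform, `κ ≥ 4` -/
def UniGoal : Prop := ∃ (D : ℕ) (B : ℝ), 1 ≤ D ∧ 1 ≤ B ∧ ∀ κ, 4 ≤ κ → ∃ y : ℝ,
  1 / Real.goldenRatio < y ∧ y + y ^ (κ + 2) / 1000 ≤ 7 / 10 ∧
  1 ≤ ∑ d ∈ Finset.Icc 2 (κ + 2), y ^ d ∧ WB κ (y + y ^ (κ + 2) / 1000) D (B ^ (κ + 1))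

end Pool.C4
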