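import Pool.Agent.Lib.MP_f302e8_gs.Defs2

/-!
Problem MP_f302e8_co (C4; helper87): assembly from the bounds for the words.
-/

set_option autoImplicit false

namespace Pool.C4

open Finset

theorem SG_le_one {κ g : ℕ} (hκ : κ ≤ 1) : (SG κ g).ncard ≤ 1 := by
  classical
  have hsub : SG κ g ⊆ {Finset.Icc 1 g} := by
    intro G hG
    rw [Set.mem_singleton_iff]
    apply eq_Icc hG.1 hG.2.1
    by_contra hcon
    have hne := nonempty_of_mlt hcon
    have h1 := one_mem hG.1 hne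
    -- the first non-gap above a gap gives a difference `≥ 2`
    obtain ⟨hm0, hm⟩ := mlt_spec G
    have hm2 : 2 ≤ mlt G := by
      by_contra h
      have : mlt G = 1 := by omega
      rw [this] at hm
      exact hm h1
    have hs : Sparse 1 G := by
      intro a b hab
      have := hG.2.2 a b hab
      omega
    have hmF : mlt G ≤ G.sup id := by omega
    obtain ⟨z, hz, hz1, hz2⟩ := density hG.1 hs le_rfl (n := mlt G) (by omega) hmF hne
    have : z = mlt G := by omega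
    rw [this] at hz
    exact hm hz
  calc (SG κ g).ncard ≤ ({Finset.Icc 1 g} : Set (Finset ℕ)).ncard :=
        Set.ncard_le_ncard hsub (Set.finite_singleton _)
    _ = 1 := Set.ncard_singleton _

theorem SG_zero {g : ℕ} (hg : 2 ≤ g) : (SG 0 g).ncard = 0 := by
  rw [Set.ncard_eq_zero (SG_finite 0 g)]
  rw [Set.eq_empty_iff_forall_notMem]
  intro G hG
  have h1 : (SG 1 g) ⊆ {Finset.Icc 1 g} := by
    have hle := SG_le_one (κ := 1) (g := g) le_rfl
    intro G' hG'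
    have hI : Finset.Icc 1 g ∈ SG 1 g := by
      refine ⟨⟨by simp, ?_⟩, by simp, ?_⟩
      · intro x y hx hy hxy
        rw [Finset.mem_Icc] at hxy
        left
        rw [Finset.mem_Icc]
        omega
      · intro a b hab
        have ha := Finset.mem_Icc.1 hab.1
        have hb := Finset.mem_Icc.1 hab.2.1
        by_contra hcon
        exact hab.2.2.2 (a + 1) (Finset.mem_Icc.2 (by omega)) (by omega)
    rw [Set.mem_singleton_iff]
    exact (Set.ncard_le_one (SG_finite 1 g)).1 hle G' hG' _ hI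
  have h2 : G ∈ SG 1 g := ⟨hG.1, hG.2.1, fun a b hab => by
    have := hG.2.2 a b hab
    omega⟩
  have h3 : G = Finset.Icc 1 g := h1 h2
  subst h3
  have := hG.2.2 1 2 ⟨by rw [Finset.mem_Icc]; omega, by rw [Finset.mem_Icc]; omega, by omega,
    fun c _ hc => by omega⟩
  omega

theorem GS_one_pos (g : ℕ) : 1 ≤ (GS 1 (g + 1)).ncard := by
  refine (Set.ncard_pos (GS_finite 1 (g + 1))).2 ?_
  refine ⟨Finset.Icc 1 (g + 1), ⟨by simp, ?_⟩, by simp, ?_⟩
  · intro x y hx hy hxy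
    rw [Finset.mem_Icc] at hxy
    left
    rw [Finset.mem_Icc]
    omega
  · by_cases hg : g = 0
    · subst hg
      right; left
      exact ⟨by simp, rfl⟩
    · right; right
      constructor
      · intro a b hab
        have ha := Finset.mem_Icc.1 hab.1
        have hb := Finset.mem_Icc.1 hab.2.1
        by_contra hcon
        exact hab.2.2.2 (a + 1) (Finset.mem_Icc.2 (by omega)) (by omega)
      · exact ⟨1, 2, ⟨by rw [Finset.mem_Icc]; omega, by rw [Finset.mem_Icc]; omega, by omega,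
          fun c _ hc => by omega⟩, by omega⟩

/-- comparison of the two weighted bounds -/
theorem ratio {a b x y U c : ℝ} {g : ℕ} (hy : 0 < y) (hx : 0 < x) (hc : 0 < c) (hU : 0 ≤ U)
    (ha : a * x ^ g ≤ U) (hb : c ≤ b * y ^ g) : a ≤ (U / c) * (y / x) ^ g * b := by
  have hxg : 0 < x ^ g := by positivity
  have hyg : 0 < y ^ g := by positivity
  have h4 : a * x ^ g ≤ ((U / c) * (y / x) ^ g * b) * x ^ g := by
    calc a * x ^ g ≤ U := ha
      _ = (U / c) * c := by field_simp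
      _ ≤ (U / c) * (b * y ^ g) := mul_le_mul_of_nonneg_left hb (by positivity)
      _ = ((U / c) * (y / x) ^ g * b) * x ^ g := by
          rw [div_pow]
          field_simp
  exact le_of_mul_le_mul_right h4 hxg

theorem fits {M r C c : ℝ} (κ g : ℕ) (hM : 0 < M) (hr : 0 < r) (hC0 : 0 ≤ C)
    (hC : Real.log M ≤ C) (hc0 : 0 ≤ c) (hc : c ≤ - Real.log r) :
    M * r ^ g ≤ Real.exp (C * (κ + 1) - c * g / Real.goldenRatio ^ κ) := by
  have hφκ : (1 : ℝ) ≤ Real.goldenRatio ^ κ := one_le_pow₀ Real.one_lt_goldenRatio.le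
  have h1 : M * r ^ g = Real.exp (Real.log M + g * Real.log r) := by
    rw [Real.exp_add, Real.exp_log hM, ← Real.log_pow, Real.exp_log (by positivity)]
  rw [h1, Real.exp_le_exp]
  have h2 : C ≤ C * (κ + 1) := le_mul_of_one_le_right hC0 (by
    have : (0 : ℝ) ≤ κ := by positivity
    linarith)
  have hg : (0 : ℝ) ≤ g := by positivity
  have h3 : c * g / Real.goldenRatio ^ κ ≤ c * g := div_le_self (by positivity) hφκ
  have h4 : c * g ≤ (- Real.log r) * g := mul_le_mul_of_nonneg_right hc hg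
  linarith

theorem U_bound {κ D : ℕ} {B x : ℝ} (hB : 1 ≤ B) (hx7 : x ≤ 7 / 10) :
    1 + (2 : ℝ) ^ (κ * D) * (1 + (B ^ (κ + 1)) ^ 2 / (1 - x)) ≤ (6 * 2 ^ D * B ^ 2) ^ (κ + 1) := by
  have h2D : (1 : ℝ) ≤ 2 ^ D := one_le_pow₀ (by norm_num)
  have hB2 : (1 : ℝ) ≤ B ^ 2 := one_le_pow₀ hB
  have e1 : (B ^ (κ + 1)) ^ 2 / (1 - x) ≤ 4 * (B ^ 2) ^ (κ + 1) := by
    rw [div_le_iff₀ (by linarith)]
    have : (B ^ (κ + 1)) ^ 2 = (B ^ 2) ^ (κ + 1) := by rw [← pow_mul, ← pow_mul, mul_comm]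
    rw [this]
    have h0 : 0 < (B ^ 2) ^ (κ + 1) := by positivity
    nlinarith
  have e2 : (1 : ℝ) ≤ (B ^ 2) ^ (κ + 1) := one_le_pow₀ hB2
  have e3 : (2 : ℝ) ^ (κ * D) ≤ (2 ^ D) ^ (κ + 1) := by
    rw [← pow_mul]
    exact pow_le_pow_right₀ (by norm_num) (by nlinarith)
  have e4 : (1 : ℝ) ≤ (2 ^ D) ^ (κ + 1) := one_le_pow₀ h2D
  have e5 : (6 : ℝ) ≤ 6 ^ (κ + 1) := by
    calc (6 : ℝ) = 6 ^ 1 := (pow_one _).symm
      _ ≤ 6 ^ (κ + 1) := pow_le_pow_right₀ (by norm_num) (by omega)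
  have e6 : (2 : ℝ) ^ (κ * D) * (1 + (B ^ (κ + 1)) ^ 2 / (1 - x)) ≤
      (2 ^ D) ^ (κ + 1) * (5 * (B ^ 2) ^ (κ + 1)) := by
    apply mul_le_mul e3 (by linarith) _ (by positivity)
    have : 0 < 1 - x := by linarith
    positivity
  have e7 : (1 : ℝ) ≤ (2 ^ D) ^ (κ + 1) * (B ^ 2) ^ (κ + 1) :=
    one_le_mul_of_one_le_of_one_le e4 e2
  calc 1 + (2 : ℝ) ^ (κ * D) * (1 + (B ^ (κ + 1)) ^ 2 / (1 - x))
      ≤ (2 ^ D) ^ (κ + 1) * (B ^ 2) ^ (κ + 1) + (2 ^ D) ^ (κ + 1) * (5 * (B ^ 2) ^ (κ + 1)) :=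
        add_le_add e7 e6
    _ = 6 * ((2 ^ D) ^ (κ + 1) * (B ^ 2) ^ (κ + 1)) := by ring
    _ ≤ 6 ^ (κ + 1) * ((2 ^ D) ^ (κ + 1) * (B ^ 2) ^ (κ + 1)) :=
        mul_le_mul_of_nonneg_right e5 (by positivity)
    _ = (6 * 2 ^ D * B ^ 2) ^ (κ + 1) := by rw [mul_pow, mul_pow, mul_assoc]

theorem phi_bound {B₂ : ℝ} (hB₂ : 1 ≤ B₂) {κ g : ℕ} {x y : ℝ}
    (hy : 1 / Real.goldenRatio < y) (hx : x = y + y ^ (κ + 2) / 1000) :
    B₂ ^ (κ + 1) * (y / x) ^ g ≤ Real.exp (Real.log B₂ * (κ + 1) -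
      (1 / (2000 * Real.goldenRatio)) * g / Real.goldenRatio ^ κ) := by
  have hφ := Real.goldenRatio_pos
  have hy0 : 0 < y := lt_trans (by positivity) hy
  set δ := (1 / Real.goldenRatio) ^ (κ + 1) / 1000 with hδ
  have hδ0 : 0 < δ := by positivity
  have hφ1 : 1 < Real.goldenRatio := Real.one_lt_goldenRatio
  have hδ1 : δ ≤ 1 := by
    rw [hδ]
    have : (1 / Real.goldenRatio) ^ (κ + 1) ≤ 1 :=
      pow_le_one₀ (by positivity) (by rw [div_le_one hφ]; exact hφ1.le)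
    linarith
  have hxy : y * (1 + δ) ≤ x := by
    rw [hx]
    have h1 : (1 / Real.goldenRatio) ^ (κ + 1) ≤ y ^ (κ + 1) :=
      pow_le_pow_left₀ (by positivity) hy.le _
    have h2 : δ ≤ y ^ (κ + 1) / 1000 := by rw [hδ]; linarith
    have h3 : y * δ ≤ y * (y ^ (κ + 1) / 1000) := mul_le_mul_of_nonneg_left h2 hy0.le
    have h4 : y * (y ^ (κ + 1) / 1000) = y ^ (κ + 2) / 1000 := by ring
    nlinarith
  have hx0 : 0 < x := lt_of_lt_of_le (by positivity) hxy
  have hyx : y / x ≤ Real.exp (-(δ / 2)) := by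
    have h1 : y / x ≤ (1 + δ)⁻¹ := by
      rw [div_le_iff₀ hx0, inv_mul_eq_div, le_div_iff₀ (by positivity)]
      exact hxy
    refine h1.trans ?_
    rw [Real.exp_neg]
    apply inv_anti₀ (Real.exp_pos _)
    rw [← Real.exp_log (show 0 < 1 + δ by positivity), Real.exp_le_exp]
    have h1 := Real.one_sub_inv_le_log_of_pos (show 0 < 1 + δ by positivity)
    have h2 : δ / 2 ≤ 1 - (1 + δ)⁻¹ := by
      rw [show 1 - (1 + δ)⁻¹ = δ / (1 + δ) by field_simp; ring]
      rw [div_le_div_iff₀ (by norm_num) (by positivity)]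
      nlinarith
    linarith
  calc B₂ ^ (κ + 1) * (y / x) ^ g ≤ B₂ ^ (κ + 1) * (Real.exp (-(δ / 2))) ^ g := by
        apply mul_le_mul_of_nonneg_left _ (by positivity)
        exact pow_le_pow_left₀ (by positivity) hyx _
    _ = Real.exp (Real.log B₂ * (κ + 1) -
      (1 / (2000 * Real.goldenRatio)) * g / Real.goldenRatio ^ κ) := by
        rw [← Real.exp_nat_mul, ← Real.exp_log (show 0 < B₂ ^ (κ + 1) by positivity), ← Real.exp_add,
          Real.log_pow]
        congr 1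
        rw [hδ, one_div_pow, pow_succ]
        push_cast
        field_simp
        ring

/-- the uniform inequality -/
theorem uniform (hW : WordsGoal2) (hU : UniGoal) : ∃ C c : ℝ, 0 < C ∧ 0 < c ∧ ∀ κ g : ℕ,
    κ + 2 ≤ g → ((SG κ g).ncard : ℝ) ≤
      Real.exp (C * (κ + 1) - c * g / Real.goldenRatio ^ κ) *
        ((GS (κ + 1) (g + 1)).ncard : ℝ) := by
  obtain ⟨D, B, hD, hB, hU⟩ := hU
  have hφ := Real.goldenRatio_pos
  have hφ1 : 1 < Real.goldenRatio := Real.one_lt_goldenRatio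
  -- `κ = 1, 2, 3`
  have hsmall : ∀ κ, 1 ≤ κ → ∃ M r : ℝ, 0 < M ∧ 0 < r ∧ r < 1 ∧ ∀ g, κ + 2 ≤ g →
      ((SG κ g).ncard : ℝ) ≤ M * r ^ g * ((GS (κ + 1) (g + 1)).ncard : ℝ) := by
    intro κ h1
    rcases Nat.lt_or_ge κ 2 with h1' | h2
    · have : κ = 1 := by omega
      subst this
      obtain ⟨c, hc, hb⟩ := lowerGoal 1 le_rfl (4 / 5) (by norm_num) (by norm_num) (by
        rw [show Finset.Icc 2 (1 + 2) = ({2, 3} : Finset ℕ) by rfl]
        rw [Finset.sum_pair (by norm_num)]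
        norm_num)
      refine ⟨1 / c, 4 / 5, by positivity, by norm_num, by norm_num, fun g hg => ?_⟩
      have := ratio (a := ((SG 1 g).ncard : ℝ)) (x := 1) (y := 4 / 5) (U := 1) (g := g)
        (by norm_num) (by norm_num) hc (by norm_num) (by
          rw [one_pow, mul_one]
          exact_mod_cast SG_le_one (κ := 1) (g := g) le_rfl) (hb g hg)
      rwa [div_one] at this
    · obtain ⟨x, y, D, K, hy, hyx, hx1, hs, hD, hWB⟩ := hW κ h2
      obtain ⟨c, hc, hb⟩ := lowerGoal κ h1 y hy (by linarith) hs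
      have hx0 := hy.trans hyx
      have hUpos : (0 : ℝ) < 1 + 2 ^ (κ * D) * (1 + K ^ 2 / (1 - x)) := by
        have : 0 < 1 - x := by linarith
        positivity
      refine ⟨(1 + 2 ^ (κ * D) * (1 + K ^ 2 / (1 - x))) / c, y / x, by positivity, by positivity,
        (div_lt_one hx0).2 hyx, fun g hg => ?_⟩
      exact ratio hy hx0 hc hUpos.le (upper_explicit h2 hx0 hx1 D K hWB hD g) (hb g hg)
  obtain ⟨M₁, r₁, hM₁, hr₁, hr₁', h₁⟩ := hsmall 1 (by norm_num)
  obtain ⟨M₂, r₂, hM₂, hr₂, hr₂', h₂⟩ := hsmall 2 (by norm_num)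
  obtain ⟨M₃, r₃, hM₃, hr₃, hr₃', h₃⟩ := hsmall 3 (by norm_num)
  set B₂ : ℝ := (6 * 2 ^ D * B ^ 2) * Real.goldenRatio ^ 3 with hB₂
  have h2D : (1 : ℝ) ≤ 2 ^ D := one_le_pow₀ (by norm_num)
  have hB2 : (1 : ℝ) ≤ B ^ 2 := one_le_pow₀ hB
  have hφ3 : (1 : ℝ) ≤ Real.goldenRatio ^ 3 := one_le_pow₀ hφ1.le
  have hB₂1 : 1 ≤ B₂ := by
    rw [hB₂]
    have h1 : (1 : ℝ) ≤ 2 ^ D * B ^ 2 := one_le_mul_of_one_le_of_one_le h2D hB2
    have h2 : (1 : ℝ) ≤ 6 * 2 ^ D * B ^ 2 := by nlinarith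
    exact one_le_mul_of_one_le_of_one_le h2 hφ3
  have hlogB : 0 ≤ Real.log B₂ := Real.log_nonneg hB₂1
  have hl₁ : 0 < - Real.log r₁ := neg_pos.2 (Real.log_neg hr₁ hr₁')
  have hl₂ : 0 < - Real.log r₂ := neg_pos.2 (Real.log_neg hr₂ hr₂')
  have hl₃ : 0 < - Real.log r₃ := neg_pos.2 (Real.log_neg hr₃ hr₃')
  set C : ℝ := 1 + Real.log B₂ + |Real.log M₁| + |Real.log M₂| + |Real.log M₃| with hC
  set c : ℝ := min (1 / (2000 * Real.goldenRatio))
    (min (- Real.log r₁) (min (- Real.log r₂) (- Real.log r₃))) with hc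
  have hc0 : 0 < c := by
    rw [hc]
    have : 0 < 1 / (2000 * Real.goldenRatio) := by positivity
    exact lt_min this (lt_min hl₁ (lt_min hl₂ hl₃))
  have hc1 : c ≤ - Real.log r₁ := (min_le_right _ _).trans (min_le_left _ _)
  have hc2 : c ≤ - Real.log r₂ :=
    (min_le_right _ _).trans ((min_le_right _ _).trans (min_le_left _ _))
  have hc3 : c ≤ - Real.log r₃ :=
    (min_le_right _ _).trans ((min_le_right _ _).trans (min_le_right _ _))
  have hc4 : c ≤ 1 / (2000 * Real.goldenRatio) := min_le_left _ _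
  have ha1 := abs_nonneg (Real.log M₁)
  have ha2 := abs_nonneg (Real.log M₂)
  have ha3 := abs_nonneg (Real.log M₃)
  have hC0 : 0 < C := by rw [hC]; linarith
  have hC1 : Real.log M₁ ≤ C := by have := le_abs_self (Real.log M₁); rw [hC]; linarith
  have hC2 : Real.log M₂ ≤ C := by have := le_abs_self (Real.log M₂); rw [hC]; linarith
  have hC3 : Real.log M₃ ≤ C := by have := le_abs_self (Real.log M₃); rw [hC]; linarith
  have hC4 : Real.log B₂ ≤ C := by rw [hC]; linarith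
  refine ⟨C, c, hC0, hc0, fun κ g hg => ?_⟩
  have hb0 : ∀ κ', (0 : ℝ) ≤ ((GS (κ' + 1) (g + 1)).ncard : ℝ) := fun _ => by positivity
  by_cases h4 : 4 ≤ κ
  · obtain ⟨y, hy1, hx7, hs, hWB⟩ := hU κ h4
    have hy0 : 0 < y := lt_trans (by positivity) hy1
    set x := y + y ^ (κ + 2) / 1000 with hx
    have hyx : y < x := by
      rw [hx]
      have : 0 < y ^ (κ + 2) / 1000 := by positivity
      linarith
    have hx1 : x < 1 := by linarith
    have hylt : y ≤ 1 := by linarith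
    have hx0 := hy0.trans hyx
    have hup := upper_explicit (show 2 ≤ κ by omega) hx0 hx1 D (B ^ (κ + 1)) hWB hD g
    have hlow : y ^ (2 * κ + 3) ≤ ((GS (κ + 1) (g + 1)).ncard : ℝ) * y ^ g := by
      have h1 := T_lower κ (by omega) y hy0 hylt hs (g - κ) (by omega)
      have h2 : (T κ (g - κ)).card ≤ (GS (κ + 1) (g - κ + κ + 1)).ncard := T_le_GS (by omega)
      rw [show g - κ + κ + 1 = g + 1 by omega] at h2
      have h3 : ((T κ (g - κ)).card : ℝ) ≤ ((GS (κ + 1) (g + 1)).ncard : ℝ) := by exact_mod_cast h2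
      have hyg : 0 < y ^ g := by positivity
      have hyk : 0 < y ^ κ := by positivity
      have h4 : y ^ g = y ^ (g - κ) * y ^ κ := by rw [← pow_add]; congr 1; omega
      calc y ^ (2 * κ + 3) = y ^ (κ + 3) * y ^ κ := by rw [← pow_add]; congr 1; omega
        _ ≤ ((T κ (g - κ)).card : ℝ) * y ^ (g - κ) * y ^ κ := mul_le_mul_of_nonneg_right h1 hyk.le
        _ = ((T κ (g - κ)).card : ℝ) * y ^ g := by rw [h4]; ring
        _ ≤ ((GS (κ + 1) (g + 1)).ncard : ℝ) * y ^ g := mul_le_mul_of_nonneg_right h3 hyg.le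
    have hU₀0 : (0 : ℝ) < (6 * 2 ^ D * B ^ 2) ^ (κ + 1) := by
      have : 0 < 6 * 2 ^ D * B ^ 2 := by nlinarith
      positivity
    have hrat := ratio hy0 hx0 (show 0 < y ^ (2 * κ + 3) by positivity) hU₀0.le
      (hup.trans (U_bound hB hx7)) hlow
    have hUc : (6 * 2 ^ D * B ^ 2) ^ (κ + 1) / y ^ (2 * κ + 3) ≤ B₂ ^ (κ + 1) := by
      rw [div_le_iff₀ (by positivity)]
      have hcc : (1 : ℝ) ≤ (Real.goldenRatio ^ 3) ^ (κ + 1) * y ^ (2 * κ + 3) := by
        have e1 : 1 ≤ Real.goldenRatio * y := by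
          rw [div_lt_iff₀ hφ] at hy1
          linarith
        have e2 : (1 : ℝ) ≤ (Real.goldenRatio * y) ^ (2 * κ + 3) := one_le_pow₀ e1
        have e3 : Real.goldenRatio ^ (2 * κ + 3) ≤ (Real.goldenRatio ^ 3) ^ (κ + 1) := by
          rw [← pow_mul]
          exact pow_le_pow_right₀ hφ1.le (by omega)
        calc (1 : ℝ) ≤ (Real.goldenRatio * y) ^ (2 * κ + 3) := e2
          _ = Real.goldenRatio ^ (2 * κ + 3) * y ^ (2 * κ + 3) := mul_pow _ _ _
          _ ≤ _ := mul_le_mul_of_nonneg_right e3 (by positivity)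
      calc (6 * 2 ^ D * B ^ 2) ^ (κ + 1) ≤ (6 * 2 ^ D * B ^ 2) ^ (κ + 1) *
            ((Real.goldenRatio ^ 3) ^ (κ + 1) * y ^ (2 * κ + 3)) :=
            le_mul_of_one_le_right hU₀0.le hcc
        _ = B₂ ^ (κ + 1) * y ^ (2 * κ + 3) := by
            rw [hB₂, mul_pow (6 * 2 ^ D * B ^ 2) (Real.goldenRatio ^ 3) (κ + 1)]
            exact (mul_assoc _ _ _).symm
    have hphi := phi_bound (B₂ := B₂) hB₂1 (κ := κ) (g := g) (x := x) (y := y) hy1 hx
    refine hrat.trans (mul_le_mul_of_nonneg_right ?_ (hb0 κ))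
    calc (6 * 2 ^ D * B ^ 2) ^ (κ + 1) / y ^ (2 * κ + 3) * (y / x) ^ g
        ≤ B₂ ^ (κ + 1) * (y / x) ^ g := mul_le_mul_of_nonneg_right hUc (by positivity)
      _ ≤ _ := hphi
      _ ≤ _ := by
          rw [Real.exp_le_exp]
          have e1 : Real.log B₂ * (κ + 1) ≤ C * (κ + 1) :=
            mul_le_mul_of_nonneg_right hC4 (by positivity)
          have e2 : c * g / Real.goldenRatio ^ κ ≤
              1 / (2000 * Real.goldenRatio) * g / Real.goldenRatio ^ κ := by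
            apply div_le_div_of_nonneg_right _ (by positivity)
            exact mul_le_mul_of_nonneg_right hc4 (by positivity)
          linarith
  · have hκ : κ = 0 ∨ κ = 1 ∨ κ = 2 ∨ κ = 3 := by omega
    rcases hκ with rfl | rfl | rfl | rfl
    · rw [SG_zero (by omega), Nat.cast_zero]
      exact mul_nonneg (Real.exp_pos _).le (hb0 0)
    · exact (h₁ g hg).trans (mul_le_mul_of_nonneg_right
        (fits 1 g hM₁ hr₁ hC0.le hC1 hc0.le hc1) (hb0 1))
    · exact (h₂ g hg).trans (mul_le_mul_of_nonneg_right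
        (fits 2 g hM₂ hr₂ hC0.le hC2 hc0.le hc2) (hb0 2))
    · exact (h₃ g hg).trans (mul_le_mul_of_nonneg_right
        (fits 3 g hM₃ hr₃ hC0.le hC3 hc0.le hc3) (hb0 3))

/-- the threshold -/
theorem threshold (hW : WordsGoal2) (hU : UniGoal) : ∃ C c : ℝ, 0 < C ∧ 0 < c ∧
    (∀ κ g : ℕ, κ + 2 ≤ g → ((SG κ g).ncard : ℝ) ≤
      Real.exp (C * (κ + 1) - c * g / Real.goldenRatio ^ κ) *
        ((GS (κ + 1) (g + 1)).ncard : ℝ)) ∧
    (∀ κ g : ℕ, C * (κ + 1) * Real.goldenRatio ^ κ ≤ c * g →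
      (SG κ g).ncard ≤ (GS (κ + 1) (g + 1)).ncard) := by
  obtain ⟨C, c, hC, hc, h⟩ := uniform hW hU
  -- enlarge `C` so that the threshold forces `g ≥ κ + 2`
  refine ⟨C + 2 * c, c, by positivity, hc, ?_, ?_⟩
  · intro κ g hg
    refine (h κ g hg).trans (mul_le_mul_of_nonneg_right ?_ (by positivity))
    rw [Real.exp_le_exp]
    have : C * ((κ : ℝ) + 1) ≤ (C + 2 * c) * (κ + 1) := by
      apply mul_le_mul_of_nonneg_right _ (by positivity)
      linarith
    linarith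
  · intro κ g hg
    have hφκ : (1 : ℝ) ≤ Real.goldenRatio ^ κ := one_le_pow₀ Real.one_lt_goldenRatio.le
    have hφκ0 : (0 : ℝ) < Real.goldenRatio ^ κ := by linarith
    have hκ0 : (0 : ℝ) ≤ κ := by positivity
    have hg2 : κ + 2 ≤ g := by
      have h1 : c * (2 * ((κ : ℝ) + 1)) ≤ c * g := by
        calc c * (2 * ((κ : ℝ) + 1)) ≤ (C + 2 * c) * (κ + 1) := by nlinarith [mul_pos hC hc]
          _ ≤ (C + 2 * c) * (κ + 1) * Real.goldenRatio ^ κ :=
              le_mul_of_one_le_right (by positivity) hφκ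
          _ ≤ c * g := hg
      have h2 : 2 * ((κ : ℝ) + 1) ≤ g := le_of_mul_le_mul_left h1 hc
      have h3 : 2 * (κ + 1) ≤ g := by exact_mod_cast h2
      omega
    have h1 := h κ g hg2
    have h2 : Real.exp (C * (κ + 1) - c * g / Real.goldenRatio ^ κ) ≤ 1 := by
      rw [Real.exp_le_one_iff, sub_nonpos, le_div_iff₀ hφκ0]
      refine le_trans ?_ hg
      apply mul_le_mul_of_nonneg_right _ hφκ0.le
      apply mul_le_mul_of_nonneg_right _ (by positivity)
      linarith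
    have h3 : ((SG κ g).ncard : ℝ) ≤ ((GS (κ + 1) (g + 1)).ncard : ℝ) := by
      refine h1.trans ?_
      exact mul_le_of_le_one_left (by positivity) h2
    exact_mod_cast h3

end Pool.C4
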