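import Pool.Agent.Lib.MP_f302e8_gs.Defs

/-!
Problem MP_f302e8_co (C4, helper87): finiteness of `GS κ g` and the lower bound `LowerGoal`.
-/

set_option autoImplicit false

namespace Pool.C4

open Finset

/-- a gap is at most `2g - 1` -/
theorem le_of_mem {G : Finset ℕ} (hG : IsGapset G) {z : ℕ} (hz : z ∈ G) : z + 1 ≤ 2 * G.card := by
  classical
  have h0 : z ≠ 0 := fun h => hG.1 (h ▸ hz)
  have hsub : Finset.Icc 1 (z - 1) ⊆ (G.erase z) ∪ (G.erase z).image (fun a => z - a) := by
    intro x hx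
    rw [Finset.mem_Icc] at hx
    have := hG.2 x (z - x) (by omega) (by omega) (by rwa [show x + (z - x) = z by omega])
    rw [Finset.mem_union, Finset.mem_image, Finset.mem_erase]
    rcases this with h | h
    · left; exact ⟨by omega, h⟩
    · right; exact ⟨z - x, Finset.mem_erase.2 ⟨by omega, h⟩, by omega⟩
  have h1 := Finset.card_le_card hsub
  have h2 := Finset.card_union_le (G.erase z) ((G.erase z).image (fun a => z - a))
  have h3 : ((G.erase z).image (fun a => z - a)).card ≤ (G.erase z).card := Finset.card_image_le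
  have h4 := Finset.card_erase_of_mem hz
  have h5 : 0 < G.card := Finset.card_pos.2 ⟨z, hz⟩
  rw [Nat.card_Icc] at h1
  omega

theorem GS_finite (κ g : ℕ) : (GS κ g).Finite := by
  apply Set.Finite.subset (Finset.finite_toSet ((Finset.range (2 * g + 1)).powerset))
  intro G hG
  simp only [Finset.coe_powerset, Set.mem_preimage, Set.mem_powerset_iff, Finset.coe_subset]
  intro z hz
  have := le_of_mem hG.1 hz
  rw [hG.2.1] at this
  rw [Finset.mem_range]
  omega

/-- the upper part of a depth two gapset: minimum `κ`, steps at most `κ + 1` -/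
def Good (κ : ℕ) (A : Finset ℕ) : Prop :=
  κ ∈ A ∧ (∀ a ∈ A, κ ≤ a) ∧ (∀ a ∈ A, a ≠ κ → ∃ b ∈ A, b < a ∧ a ≤ b + κ + 1)

open Classical in
noncomputable def T (κ N : ℕ) : Finset (Finset ℕ) :=
  ((Finset.range (κ + N + 2)).powerset).filter (fun A => Good κ A ∧ A.sup id + A.card = κ + 1 + N)

theorem mem_T {κ N : ℕ} {A : Finset ℕ} :
    A ∈ T κ N ↔ Good κ A ∧ A.sup id + A.card = κ + 1 + N := by
  simp only [T, Finset.mem_filter, Finset.mem_powerset]
  constructor
  · exact fun h => h.2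
  · intro h
    refine ⟨fun a ha => ?_, h⟩
    have : a ≤ A.sup id := Finset.le_sup (f := id) ha
    rw [Finset.mem_range]
    omega

theorem sup_insert_add {A : Finset ℕ} {d : ℕ} :
    (insert (A.sup id + d) A).sup id = A.sup id + d := by
  rw [Finset.sup_insert]
  simp

theorem not_mem_sup_add {A : Finset ℕ} {d : ℕ} (hd : 1 ≤ d) : A.sup id + d ∉ A := by
  intro h
  have : A.sup id + d ≤ A.sup id := Finset.le_sup (f := id) h
  omega

theorem insert_mem_T {κ N d : ℕ} {A : Finset ℕ} (hA : A ∈ T κ N) (hd : 1 ≤ d) (hd' : d ≤ κ + 1) :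
    insert (A.sup id + d) A ∈ T κ (N + d + 1) := by
  rw [mem_T] at hA ⊢
  obtain ⟨⟨h1, h2, h3⟩, h4⟩ := hA
  have hsupmem : A.sup id ∈ A := by
    obtain ⟨b, hb, hb'⟩ := Finset.exists_mem_eq_sup A ⟨κ, h1⟩ id
    rw [hb']; exact hb
  refine ⟨⟨Finset.mem_insert_of_mem h1, ?_, ?_⟩, ?_⟩
  · intro a ha
    rcases Finset.mem_insert.1 ha with rfl | ha
    · have := h2 _ hsupmem
      omega
    · exact h2 a ha
  · intro a ha hne
    rcases Finset.mem_insert.1 ha with rfl | ha
    · exact ⟨A.sup id, Finset.mem_insert_of_mem hsupmem, by omega, by omega⟩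
    · obtain ⟨b, hb, hb'⟩ := h3 a ha hne
      exact ⟨b, Finset.mem_insert_of_mem hb, hb'⟩
  · rw [sup_insert_add, Finset.card_insert_of_notMem (not_mem_sup_add hd)]
    omega

theorem singleton_mem_T (κ : ℕ) : ({κ} : Finset ℕ) ∈ T κ 0 := by
  rw [mem_T]
  refine ⟨⟨Finset.mem_singleton_self _, ?_, ?_⟩, ?_⟩
  · intro a ha; rw [Finset.mem_singleton] at ha; omega
  · intro a ha hne; rw [Finset.mem_singleton] at ha; exact absurd ha hne
  · simp

theorem T_recursion (κ N : ℕ) (hN : κ + 2 ≤ N) :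
    ∑ e ∈ Finset.Icc 2 (κ + 2), (T κ (N - e)).card ≤ (T κ N).card := by
  classical
  rw [← Finset.card_sigma]
  apply Finset.card_le_card_of_injOn (fun p => insert (p.2.sup id + (p.1 - 1)) p.2)
  · rintro ⟨e, A⟩ h
    simp only [Finset.coe_sigma, Set.mem_sigma_iff, Finset.mem_coe, Finset.mem_Icc] at h
    have := insert_mem_T (d := e - 1) h.2 (by omega) (by omega)
    rw [show N - e + (e - 1) + 1 = N by omega] at this
    exact this
  · rintro ⟨e, A⟩ h ⟨e', A'⟩ h' heq
    simp only [Finset.coe_sigma, Set.mem_sigma_iff, Finset.mem_coe, Finset.mem_Icc] at h h'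
    simp only at heq
    have hs : A.sup id + (e - 1) = A'.sup id + (e' - 1) := by
      have := congrArg (fun B : Finset ℕ => B.sup id) heq
      simpa only [sup_insert_add] using this
    have hA : A = A' := by
      have h1 : (insert (A.sup id + (e - 1)) A).erase (A.sup id + (e - 1)) = A :=
        Finset.erase_insert (not_mem_sup_add (by omega))
      have h2 : (insert (A'.sup id + (e' - 1)) A').erase (A'.sup id + (e' - 1)) = A' :=
        Finset.erase_insert (not_mem_sup_add (by omega))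
      rw [← h1, ← h2, heq, hs]
    subst hA
    have : e = e' := by omega
    subst this
    rfl

theorem T_pos (κ : ℕ) (hκ : 1 ≤ κ) : ∀ N, 2 ≤ N → 1 ≤ (T κ N).card := by
  intro N
  induction N using Nat.strong_induction_on with
  | _ N ih =>
    intro hN
    by_cases h : N ≤ κ + 2
    · have := insert_mem_T (d := N - 1) (singleton_mem_T κ) (by omega) (by omega)
      rw [show 0 + (N - 1) + 1 = N by omega] at this
      exact Finset.card_pos.2 ⟨_, this⟩
    · have h1 := T_recursion κ N (by omega)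
      have h2 := ih (N - 2) (by omega) (by omega)
      have h3 : (T κ (N - 2)).card ≤ ∑ e ∈ Finset.Icc 2 (κ + 2), (T κ (N - e)).card :=
        Finset.single_le_sum (f := fun e => (T κ (N - e)).card) (fun _ _ => Nat.zero_le _)
          (Finset.mem_Icc.2 ⟨le_refl 2, by omega⟩)
      omega

theorem T_lower (κ : ℕ) (hκ : 1 ≤ κ) (y : ℝ) (hy : 0 < y) (hy1 : y ≤ 1)
    (hs : 1 ≤ ∑ d ∈ Finset.Icc 2 (κ + 2), y ^ d) :
    ∀ N, 2 ≤ N → y ^ (κ + 3) ≤ ((T κ N).card : ℝ) * y ^ N := by
  intro N
  induction N using Nat.strong_induction_on with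
  | _ N ih =>
    intro hN
    by_cases h : N ≤ κ + 3
    · have h1 : (1 : ℝ) ≤ (T κ N).card := by exact_mod_cast T_pos κ hκ N hN
      have h2 : y ^ (κ + 3) ≤ y ^ N := pow_le_pow_of_le_one hy.le hy1 h
      have h3 : 0 < y ^ N := by positivity
      nlinarith
    · have hrec : (∑ e ∈ Finset.Icc 2 (κ + 2), ((T κ (N - e)).card : ℝ)) ≤ (T κ N).card := by
        exact_mod_cast T_recursion κ N (by omega)
      have hyN : 0 < y ^ N := by positivity
      calc y ^ (κ + 3) ≤ (∑ d ∈ Finset.Icc 2 (κ + 2), y ^ d) * y ^ (κ + 3) := by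
            have : 0 < y ^ (κ + 3) := by positivity
            nlinarith
        _ = ∑ d ∈ Finset.Icc 2 (κ + 2), y ^ d * y ^ (κ + 3) := Finset.sum_mul _ _ _
        _ ≤ ∑ d ∈ Finset.Icc 2 (κ + 2), ((T κ (N - d)).card : ℝ) * y ^ N := by
            apply Finset.sum_le_sum
            intro d hd
            rw [Finset.mem_Icc] at hd
            have h1 := ih (N - d) (by omega) (by omega)
            have h2 : y ^ N = y ^ d * y ^ (N - d) := by
              rw [← pow_add]; congr 1; omega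
            rw [h2]
            have h3 : 0 < y ^ d := by positivity
            calc y ^ d * y ^ (κ + 3) ≤ y ^ d * (((T κ (N - d)).card : ℝ) * y ^ (N - d)) :=
                  mul_le_mul_of_nonneg_left h1 h3.le
              _ = _ := by ring
        _ = (∑ d ∈ Finset.Icc 2 (κ + 2), ((T κ (N - d)).card : ℝ)) * y ^ N :=
            (Finset.sum_mul _ _ _).symm
        _ ≤ ((T κ N).card : ℝ) * y ^ N := mul_le_mul_of_nonneg_right hrec hyN.le

/-- the depth two gapset with upper part `A` -/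
def gsA (A : Finset ℕ) : Finset ℕ :=
  Finset.Icc 1 (A.sup id) ∪ A.image (fun a => a + (A.sup id + 1))

theorem mem_gsA {A : Finset ℕ} {z : ℕ} :
    z ∈ gsA A ↔ (1 ≤ z ∧ z ≤ A.sup id) ∨ ∃ a ∈ A, a + (A.sup id + 1) = z := by
  simp [gsA]

theorem gsA_mem {κ N : ℕ} (hκ : 1 ≤ κ) {A : Finset ℕ} (hA : A ∈ T κ N) :
    gsA A ∈ GS (κ + 1) (N + κ + 1) := by
  rw [mem_T] at hA
  obtain ⟨⟨h1, h2, h3⟩, h4⟩ := hA
  set M := A.sup id with hM
  have hle : ∀ a ∈ A, a ≤ M := fun a ha => Finset.le_sup (f := id) ha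
  have hMκ : κ ≤ M := hle κ h1
  refine ⟨⟨?_, ?_⟩, ?_, ?_⟩
  · rw [mem_gsA]
    rintro (h | ⟨a, -, ha⟩) <;> omega
  · intro x y hx hy hxy
    rw [mem_gsA] at hxy
    rcases hxy with h | ⟨a, ha, hae⟩
    · left; rw [mem_gsA]; left; omega
    · have := hle a ha
      by_cases hxM : x ≤ M
      · left; rw [mem_gsA]; left; exact ⟨hx, hxM⟩
      · right; rw [mem_gsA]; left; exact ⟨hy, by omega⟩
  · unfold gsA
    rw [Finset.card_union_of_disjoint, Finset.card_image_of_injective _ (add_left_injective _),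
      Nat.card_Icc]
    · omega
    · rw [Finset.disjoint_left]
      intro z hz hz'
      rw [Finset.mem_Icc] at hz
      obtain ⟨a, -, ha⟩ := Finset.mem_image.1 hz'
      omega
  · right; right
    constructor
    · rintro a b ⟨ha, hb, hab, hc⟩
      have hb' := mem_gsA.1 hb
      rcases hb' with hb' | ⟨s, hs, hsb⟩
      · by_contra hcon
        apply hc (b - 1)
        · rw [mem_gsA]; left; omega
        · omega
      · by_cases hsκ : s = κ
        · have hMmem : M ∈ gsA A := by rw [mem_gsA]; left; omega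
          have := hc M hMmem
          omega
        · obtain ⟨s', hs', hlt, hle'⟩ := h3 s hs hsκ
          have hmem : s' + (M + 1) ∈ gsA A := by rw [mem_gsA]; right; exact ⟨s', hs', rfl⟩
          have := hc _ hmem
          omega
    · refine ⟨M, κ + (M + 1), ⟨?_, ?_, by omega, ?_⟩, by omega⟩
      · rw [mem_gsA]; left; omega
      · rw [mem_gsA]; right; exact ⟨κ, h1, rfl⟩
      · intro c hc hcc
        rcases mem_gsA.1 hc with h | ⟨a, ha, hac⟩
        · omega
        · have := h2 a ha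
          omega

theorem gsA_inj {κ N : ℕ} (hκ : 1 ≤ κ) {A A' : Finset ℕ} (hA : A ∈ T κ N) (hA' : A' ∈ T κ N)
    (h : gsA A = gsA A') : A = A' := by
  have key : ∀ {B B' : Finset ℕ}, B ∈ T κ N → B' ∈ T κ N → gsA B = gsA B' →
      B'.sup id ≤ B.sup id := by
    intro B B' hB hB' hBB
    by_contra hlt
    push Not at hlt
    have : B.sup id + 1 ∈ gsA B' := by rw [mem_gsA]; left; omega
    rw [← hBB, mem_gsA] at this
    rcases this with h | ⟨a, ha, hae⟩
    · omega
    · have := (mem_T.1 hB).1.2.1 a ha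
      omega
  have hM : A.sup id = A'.sup id := le_antisymm (key hA' hA h.symm) (key hA hA' h)
  ext a
  have h1 : a ∈ A ↔ a + (A.sup id + 1) ∈ gsA A := by
    rw [mem_gsA]
    constructor
    · intro ha; right; exact ⟨a, ha, rfl⟩
    · rintro (h | ⟨b, hb, hbe⟩)
      · omega
      · rwa [show a = b by omega]
  have h2 : a ∈ A' ↔ a + (A'.sup id + 1) ∈ gsA A' := by
    rw [mem_gsA]
    constructor
    · intro ha; right; exact ⟨a, ha, rfl⟩
    · rintro (h | ⟨b, hb, hbe⟩)
      · omega
      · rwa [show a = b by omega]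
  rw [h1, h2, h, hM]

theorem T_le_GS {κ N : ℕ} (hκ : 1 ≤ κ) : (T κ N).card ≤ (GS (κ + 1) (N + κ + 1)).ncard := by
  rw [← Set.ncard_coe_finset]
  refine Set.ncard_le_ncard_of_injOn gsA ?_ ?_ (GS_finite _ _)
  · intro A hA
    exact gsA_mem hκ hA
  · intro A hA A' hA' h
    exact gsA_inj hκ hA hA' h

theorem lowerGoal : LowerGoal := by
  intro κ hκ y hy hy1 hs
  refine ⟨y ^ (2 * κ + 3), by positivity, ?_⟩
  intro g hg
  have h1 := T_lower κ hκ y hy hy1 hs (g - κ) (by omega)
  have h2 : (T κ (g - κ)).card ≤ (GS (κ + 1) (g - κ + κ + 1)).ncard := T_le_GS hκ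
  rw [show g - κ + κ + 1 = g + 1 by omega] at h2
  have h3 : ((T κ (g - κ)).card : ℝ) ≤ ((GS (κ + 1) (g + 1)).ncard : ℝ) := by exact_mod_cast h2
  have h4 : y ^ g = y ^ (g - κ) * y ^ κ := by rw [← pow_add]; congr 1; omega
  have hyk : 0 < y ^ κ := by positivity
  have hyg : 0 < y ^ g := by positivity
  calc y ^ (2 * κ + 3) = y ^ (κ + 3) * y ^ κ := by rw [← pow_add]; congr 1; omega
    _ ≤ ((T κ (g - κ)).card : ℝ) * y ^ (g - κ) * y ^ κ := mul_le_mul_of_nonneg_right h1 hyk.le
    _ = ((T κ (g - κ)).card : ℝ) * y ^ g := by rw [h4]; ring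
    _ ≤ ((GS (κ + 1) (g + 1)).ncard : ℝ) * y ^ g := mul_le_mul_of_nonneg_right h3 hyg.le

end Pool.C4
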