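import Pool.Agent.Lib.MP_f302e8_gs.Upper

/-!
Problem MP_f302e8_co (C4, helper87): the upper bound, summation.
-/

set_option autoImplicit false

namespace Pool.C4

open Finset

/-- all `κ`-sparse gapsets of genus `g` -/
def SG (κ g : ℕ) : Set (Finset ℕ) := {G | IsGapset G ∧ G.card = g ∧ Sparse κ G}

theorem GS_subset_SG (κ g : ℕ) : GS κ g ⊆ SG κ g := by
  rintro G ⟨h1, h2, h3⟩
  refine ⟨h1, h2, ?_⟩
  rcases h3 with ⟨rfl, -⟩ | ⟨rfl, -⟩ | ⟨h, -⟩
  · intro a b hab
    exact absurd hab.1 (Finset.notMem_empty a)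
  · intro a b hab
    have h1 := Finset.mem_singleton.1 hab.1
    have h2 := Finset.mem_singleton.1 hab.2.1
    have := hab.2.2.1
    omega
  · exact h

theorem SG_finite (κ g : ℕ) : (SG κ g).Finite := by
  apply Set.Finite.subset (Finset.finite_toSet ((Finset.range (2 * g + 1)).powerset))
  intro G hG
  simp only [Finset.coe_powerset, Set.mem_preimage, Set.mem_powerset_iff, Finset.coe_subset]
  intro z hz
  have := le_of_mem hG.1 hz
  rw [hG.2.1] at this
  rw [Finset.mem_range]
  omega

theorem sup_mem {G : Finset ℕ} (hne : G.Nonempty) : G.sup id ∈ G := by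
  obtain ⟨b, hb, hb'⟩ := Finset.exists_mem_eq_sup G hne id
  rw [hb']; exact hb

/-- a gapset below its multiplicity is an interval -/
theorem eq_Icc {g : ℕ} {G : Finset ℕ} (hG : IsGapset G) (hg : G.card = g)
    (h : G.sup id < mlt G) : G = Finset.Icc 1 g := by
  have h1 : G = Finset.Icc 1 (G.sup id) := by
    ext z
    rw [Finset.mem_Icc]
    constructor
    · intro hz
      exact ⟨Nat.pos_of_ne_zero fun h0 => hG.1 (h0 ▸ hz), le_sup_id hz⟩
    · rintro ⟨h1, h2⟩
      exact mem_of_lt_mlt h1 (by omega)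
  have h2 : G.sup id = g := by
    rw [← hg]
    conv_rhs => rw [h1]
    rw [Nat.card_Icc]
    omega
  rw [h1, h2]

theorem nonempty_of_mlt {G : Finset ℕ} (h : ¬ G.sup id < mlt G) : G.Nonempty := by
  rw [Finset.nonempty_iff_ne_empty]
  rintro rfl
  have := (mlt_spec ∅).1
  simp at h
  omega

/-- existence of the data -/
theorem exists_data (κ D : ℕ) {G : Finset ℕ} (hG : IsGapset G) (hmF : ¬ G.sup id < mlt G) :
    ∃ q n1 n2, Data κ D G ((Finset.range (κ * D)).filter (fun c => G.sup id - c ∈ G)) q n1 n2 := by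
  classical
  have hne := nonempty_of_mlt hmF
  obtain ⟨hm0, hm⟩ := mlt_spec G
  have hsup : G.sup id ∈ G := sup_mem hne
  set m := mlt G with hmdef
  set F := G.sup id with hF
  have hFm : F % m ≠ 0 := by
    intro h0
    apply mul_notMem hG (F / m)
    rw [← hmdef, Nat.div_mul_cancel (Nat.dvd_of_mod_eq_zero h0)]
    exact hsup
  have hlt : F % m < m := Nat.mod_lt _ hm0
  have hdiv := Nat.mod_add_div' F m
  have hq : 1 ≤ F / m := (Nat.one_le_div_iff hm0).2 (by omega)
  refine ⟨F / m + 1, F % m - 1, m - 1 - F % m, ?_, ?_, ?_, ?_⟩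
  · omega
  · rw [← hmdef]; omega
  · rw [← hF]
    rw [show F % m - 1 + (m - 1 - F % m) + 2 = m by omega,
      show F % m - 1 + 1 = F % m by omega, Nat.add_sub_cancel]
    omega
  · rfl

theorem W_nonneg {κ : ℕ} {x : ℝ} (hx : 0 ≤ x) (C : Finset ℕ) (q n : ℕ) : 0 ≤ W κ x C q n :=
  Finset.sum_nonneg fun _ _ => pow_nonneg hx _

/-- the weight of one fibre -/
theorem fibre {κ g D : ℕ} (hκ : 2 ≤ κ) {x : ℝ} (hx : 0 < x) (S : Finset (Finset ℕ))
    (hS : ∀ G ∈ S, G ∈ SG κ g) (hSne : ∀ G ∈ S, G.Nonempty) (C : Finset ℕ) (q n1 n2 : ℕ)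
    (hd : ∀ G ∈ S, Data κ D G C q n1 n2) :
    ∑ _G ∈ S, x ^ g ≤ x ^ q * (W κ x C q n1 * W κ x C (q - 1) n2) := by
  classical
  set e : Finset ℕ → (Fin n1 → ℕ) × (Fin n2 → ℕ) :=
    fun G => (word G (mlt G) 0 n1, word G (mlt G) (n1 + 1) n2) with he
  have hinj : Set.InjOn e (S : Set (Finset ℕ)) := by
    intro G hG G' hG' heq
    have hG := Finset.mem_coe.1 hG
    have hG' := Finset.mem_coe.1 hG'
    rw [he] at heq
    simp only [Prod.mk.injEq] at heq
    exact (hd G hG).inj (hd G' hG') (hS G hG).1 (hS G' hG').1 (hSne G hG)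
      (hSne G' hG') heq.1 heq.2
  have h1 : ∑ _G ∈ S, x ^ g = ∑ p ∈ S.image e, x ^ q * (x ^ (∑ i, p.1 i) * x ^ (∑ i, p.2 i)) := by
    rw [Finset.sum_image hinj]
    apply Finset.sum_congr rfl
    intro G hG
    have hc := (hd G hG).card (hS G hG).1 (hSne G hG)
    rw [(hS G hG).2.1] at hc
    rw [hc, pow_add, pow_add]
    ring
  have h2 : ∑ p ∈ S.image e, x ^ q * (x ^ (∑ i, p.1 i) * x ^ (∑ i, p.2 i)) ≤
      ∑ p ∈ words κ C q n1 ×ˢ words κ C (q - 1) n2,
        x ^ q * (x ^ (∑ i, p.1 i) * x ^ (∑ i, p.2 i)) := by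
    apply Finset.sum_le_sum_of_subset_of_nonneg
    · intro p hp
      obtain ⟨G, hG, rfl⟩ := Finset.mem_image.1 hp
      rw [Finset.mem_product]
      exact ⟨(hd G hG).word1 (hS G hG).1 (hSne G hG) (hS G hG).2.2
        (by omega), (hd G hG).word2 (hS G hG).1 (hSne G hG)
        (hS G hG).2.2 (by omega)⟩
    · intro p _ _
      positivity
  rw [h1]
  refine h2.trans (le_of_eq ?_)
  rw [Finset.sum_product]
  unfold W
  rw [Finset.sum_mul_sum, Finset.mul_sum]
  apply Finset.sum_congr rfl
  intro a _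
  rw [Finset.mul_sum]

theorem card_C {κ g D : ℕ} (hκ : 2 ≤ κ) {G : Finset ℕ} (h : G ∈ SG κ g) (hne : G.Nonempty)
    (hF : κ * D ≤ G.sup id) :
    D ≤ ((Finset.range (κ * D)).filter (fun c => G.sup id - c ∈ G)).card := by
  classical
  have hsub : Finset.range D ⊆
      ((Finset.range (κ * D)).filter (fun c => G.sup id - c ∈ G)).image (fun c => c / κ) := by
    intro r hr
    rw [Finset.mem_range] at hr
    have hr' : κ * (r + 1) ≤ κ * D := Nat.mul_le_mul_left _ (by omega)
    have hexp : κ * (r + 1) = κ * r + κ := by ring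
    obtain ⟨z, hz, h1, h2⟩ := density h.1 h.2.2 (by omega)
      (n := G.sup id - κ * (r + 1) + 1) (by omega) (by omega) hne
    have hzF := le_sup_id hz
    rw [Finset.mem_image]
    refine ⟨G.sup id - z, ?_, ?_⟩
    · rw [Finset.mem_filter, Finset.mem_range]
      refine ⟨by omega, ?_⟩
      rwa [show G.sup id - (G.sup id - z) = z by omega]
    · rw [Nat.div_eq_iff (by omega)]
      constructor
      · rw [mul_comm]; omega
      · rw [mul_comm]; omega
  calc D = (Finset.range D).card := (Finset.card_range D).symm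
    _ ≤ _ := Finset.card_le_card hsub
    _ ≤ _ := Finset.card_image_le

theorem geo_le {x : ℝ} (hx : 0 < x) (hx1 : x < 1) (N : ℕ) :
    ∑ q ∈ Finset.range N, x ^ q ≤ 1 / (1 - x) := by
  rw [le_div_iff₀ (by linarith)]
  have := geom_sum_mul_neg x N
  rw [this]
  have : 0 < x ^ N := by positivity
  linarith

/-- the upper bound, explicit -/
theorem upper_explicit {κ : ℕ} (hκ : 2 ≤ κ) {x : ℝ} (hx : 0 < x) (hx1 : x < 1) (D : ℕ) (K : ℝ)
    (hK : ∀ C ⊆ Finset.range (κ * D), D ≤ C.card → 0 ∈ C → ∀ q, 1 ≤ q → ∀ N,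
      ∑ n ∈ Finset.range N, W κ x C q n ≤ K) (hD : 1 ≤ D) (g : ℕ) :
    ((SG κ g).ncard : ℝ) * x ^ g ≤ 1 + 2 ^ (κ * D) * (1 + K ^ 2 / (1 - x)) := by
  classical
  set S₀ := (SG_finite κ g).toFinset with hSdef
  have hS₀ : ∀ G ∈ S₀, G ∈ SG κ g := fun G hG => (Set.Finite.mem_toFinset _).1 hG
  have hcard : (SG κ g).ncard = S₀.card := Set.ncard_eq_toFinset_card _ _
  have hsum : ((SG κ g).ncard : ℝ) * x ^ g = ∑ _G ∈ S₀, x ^ g := by
    rw [hcard, Finset.sum_const, nsmul_eq_mul]
  rw [hsum, ← Finset.sum_filter_add_sum_filter_not S₀ (fun G => G.sup id < mlt G)]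
  have hone : ∑ _G ∈ S₀.filter (fun G => G.sup id < mlt G), x ^ g ≤ 1 := by
    have hsub : S₀.filter (fun G => G.sup id < mlt G) ⊆ {Finset.Icc 1 g} := by
      intro G hG
      rw [Finset.mem_filter] at hG
      rw [Finset.mem_singleton]
      exact eq_Icc (hS₀ G hG.1).1 (hS₀ G hG.1).2.1 hG.2
    calc ∑ _G ∈ S₀.filter (fun G => G.sup id < mlt G), x ^ g
        ≤ ∑ _G ∈ ({Finset.Icc 1 g} : Finset (Finset ℕ)), x ^ g :=
          Finset.sum_le_sum_of_subset_of_nonneg hsub fun _ _ _ => by positivity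
      _ = x ^ g := by simp
      _ ≤ 1 := pow_le_one₀ hx.le hx1.le
  set S := S₀.filter (fun G => ¬ G.sup id < mlt G) with hSS
  have hS : ∀ G ∈ S, G ∈ SG κ g := fun G hG => hS₀ G (Finset.mem_filter.1 hG).1
  have hSm : ∀ G ∈ S, ¬ G.sup id < mlt G := fun G hG => (Finset.mem_filter.1 hG).2
  refine add_le_add hone ?_
  rw [← Finset.sum_filter_add_sum_filter_not S (fun G => G.sup id < κ * D)]
  have hsmall : ∑ _G ∈ S.filter (fun G => G.sup id < κ * D), x ^ g ≤ 2 ^ (κ * D) := by
    rw [Finset.sum_const, nsmul_eq_mul]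
    have h1 : (S.filter (fun G => G.sup id < κ * D)).card ≤ 2 ^ (κ * D) := by
      rw [← Finset.card_range (κ * D), ← Finset.card_powerset]
      apply Finset.card_le_card
      intro G hG
      rw [Finset.mem_filter] at hG
      rw [Finset.mem_powerset]
      intro z hz
      rw [Finset.mem_range]
      have := le_sup_id hz
      rw [Finset.card_range] at hG
      omega
    have h2 : x ^ g ≤ 1 := pow_le_one₀ hx.le hx1.le
    have h3 : ((S.filter (fun G => G.sup id < κ * D)).card : ℝ) ≤ 2 ^ (κ * D) := by exact_mod_cast h1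
    calc ((S.filter (fun G => G.sup id < κ * D)).card : ℝ) * x ^ g
        ≤ 2 ^ (κ * D) * 1 := mul_le_mul h3 h2 (by positivity) (by positivity)
      _ = _ := mul_one _
  have hbig : ∑ _G ∈ S.filter (fun G => ¬ G.sup id < κ * D), x ^ g ≤
      2 ^ (κ * D) * (K ^ 2 / (1 - x)) := by
    set B := S.filter (fun G => ¬ G.sup id < κ * D) with hB
    have hBS : ∀ G ∈ B, G ∈ SG κ g := fun G hG => hS G (Finset.mem_filter.1 hG).1
    have hBm : ∀ G ∈ B, ¬ G.sup id < mlt G := fun G hG => hSm G (Finset.mem_filter.1 hG).1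
    have hBF : ∀ G ∈ B, κ * D ≤ G.sup id := fun G hG => by
      have := (Finset.mem_filter.1 hG).2
      omega
    choose! q n1 n2 hdata using
      (fun (G : Finset ℕ) (hG : G ∈ B) => exists_data κ D (hBS G hG).1 (hBm G hG))
    set Cf : Finset ℕ → Finset ℕ :=
      fun G => (Finset.range (κ * D)).filter (fun c => G.sup id - c ∈ G) with hCf
    set P : Finset (Finset ℕ × ℕ × ℕ × ℕ) :=
      (((Finset.range (κ * D)).powerset).filter (fun C => D ≤ C.card ∧ 0 ∈ C)) ×ˢ
        (Finset.Icc 1 (2 * g + 1)) ×ˢ (Finset.range (2 * g + 1)) ×ˢ (Finset.range (2 * g + 1)) with hP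
    have hmaps : ∀ G ∈ B, (Cf G, q G - 1, n1 G, n2 G) ∈ P := by
      intro G hG
      have hd := hdata G hG
      have hGG := hBS G hG
      have hne := nonempty_of_mlt (hBm G hG)
      have hsup : G.sup id ∈ G := sup_mem hne
      have hle := le_of_mem hGG.1 hsup
      rw [hGG.2.1] at hle
      have hFF := hd.hF
      have hqq := hd.hq
      have hF' : (q G - 1) + (n1 G + n2 G) ≤ G.sup id := by
        rw [hFF]
        obtain ⟨p, hp⟩ : ∃ p, q G - 1 = p + 1 := ⟨q G - 2, by omega⟩
        rw [hp, show (p + 1) * (n1 G + n2 G + 2) = p * (n1 G + n2 G + 2) + (n1 G + n2 G + 2) by ring]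
        have : p ≤ p * (n1 G + n2 G + 2) := Nat.le_mul_of_pos_right _ (by omega)
        omega
      simp only [hP, Finset.mem_product, Finset.mem_filter, Finset.mem_powerset, Finset.mem_Icc,
        Finset.mem_range]
      refine ⟨⟨?_, ?_, ?_⟩, ?_, ?_, ?_⟩
      · exact Finset.filter_subset _ _
      · exact card_C hκ hGG hne (hBF G hG)
      · rw [hCf]
        simp only [Finset.mem_filter, Finset.mem_range, Nat.sub_zero]
        exact ⟨Nat.mul_pos (by omega) (by omega), hsup⟩
      · omega
      · omega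
      · omega
    rw [← Finset.sum_fiberwise_of_maps_to hmaps]
    calc ∑ p ∈ P, ∑ _G ∈ B.filter (fun G => (Cf G, q G - 1, n1 G, n2 G) = p), x ^ g
        ≤ ∑ p ∈ P, x ^ (p.2.1 + 1) * (W κ x p.1 (p.2.1 + 1) p.2.2.1 * W κ x p.1 p.2.1 p.2.2.2) := by
          apply Finset.sum_le_sum
          rintro ⟨C, q', a, b⟩ hp
          simp only
          have := fibre (D := D) (g := g) hκ hx
            (B.filter (fun G => (Cf G, q G - 1, n1 G, n2 G) = (C, q', a, b)))
            (fun G hG => hBS G (Finset.mem_filter.1 hG).1)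
            (fun G hG => nonempty_of_mlt (hBm G (Finset.mem_filter.1 hG).1)) C (q' + 1) a b (by
              intro G hG
              rw [Finset.mem_filter] at hG
              have hd := hdata G hG.1
              have heq := hG.2
              simp only [Prod.mk.injEq] at heq
              obtain ⟨e1, e2, e3, e4⟩ := heq
              have e5 : q G = q' + 1 := by have := hd.hq; omega
              rw [← e1, ← e3, ← e4, ← e5]
              exact hd)
          rwa [Nat.add_sub_cancel] at this
      _ = ∑ C ∈ ((Finset.range (κ * D)).powerset).filter (fun C => D ≤ C.card ∧ 0 ∈ C),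
            ∑ q' ∈ Finset.Icc 1 (2 * g + 1), x ^ (q' + 1) *
              ((∑ a ∈ Finset.range (2 * g + 1), W κ x C (q' + 1) a) *
                (∑ b ∈ Finset.range (2 * g + 1), W κ x C q' b)) := by
          rw [hP, Finset.sum_product]
          apply Finset.sum_congr rfl
          intro C _
          rw [Finset.sum_product]
          apply Finset.sum_congr rfl
          intro q' _
          rw [Finset.sum_product, Finset.sum_mul_sum, Finset.mul_sum]
          apply Finset.sum_congr rfl
          intro a _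
          rw [Finset.mul_sum]
      _ ≤ ∑ C ∈ ((Finset.range (κ * D)).powerset).filter (fun C => D ≤ C.card ∧ 0 ∈ C),
            K ^ 2 / (1 - x) := by
          apply Finset.sum_le_sum
          intro C hC
          rw [Finset.mem_filter, Finset.mem_powerset] at hC
          have hb : ∀ q', 1 ≤ q' → ∑ a ∈ Finset.range (2 * g + 1), W κ x C q' a ≤ K :=
            fun q' hq' => hK C hC.1 hC.2.1 hC.2.2 q' hq' _
          have h0 : ∀ q', 0 ≤ ∑ a ∈ Finset.range (2 * g + 1), W κ x C q' a :=
            fun q' => Finset.sum_nonneg fun _ _ => W_nonneg hx.le _ _ _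
          have hK0 : 0 ≤ K := le_trans (h0 1) (hb 1 le_rfl)
          calc ∑ q' ∈ Finset.Icc 1 (2 * g + 1), x ^ (q' + 1) *
                ((∑ a ∈ Finset.range (2 * g + 1), W κ x C (q' + 1) a) *
                  (∑ b ∈ Finset.range (2 * g + 1), W κ x C q' b))
              ≤ ∑ q' ∈ Finset.Icc 1 (2 * g + 1), x ^ q' * K ^ 2 := by
                apply Finset.sum_le_sum
                intro q' hq'
                rw [Finset.mem_Icc] at hq'
                have h1 := mul_le_mul (hb (q' + 1) (by omega)) (hb q' hq'.1) (h0 _) hK0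
                have h2 : x ^ (q' + 1) ≤ x ^ q' := pow_le_pow_of_le_one hx.le hx1.le (by omega)
                calc _ ≤ x ^ (q' + 1) * (K * K) := mul_le_mul_of_nonneg_left h1 (by positivity)
                  _ ≤ x ^ q' * (K * K) := mul_le_mul_of_nonneg_right h2 (by positivity)
                  _ = _ := by ring
            _ = (∑ q' ∈ Finset.Icc 1 (2 * g + 1), x ^ q') * K ^ 2 := (Finset.sum_mul _ _ _).symm
            _ ≤ (1 / (1 - x)) * K ^ 2 := by
                apply mul_le_mul_of_nonneg_right _ (sq_nonneg K)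
                refine le_trans ?_ (geo_le hx hx1 (2 * g + 2))
                apply Finset.sum_le_sum_of_subset_of_nonneg
                · intro q' hq'
                  rw [Finset.mem_Icc] at hq'
                  rw [Finset.mem_range]
                  omega
                · intro _ _ _; positivity
            _ = K ^ 2 / (1 - x) := by ring
      _ = ((((Finset.range (κ * D)).powerset).filter (fun C => D ≤ C.card ∧ 0 ∈ C)).card : ℝ) *
            (K ^ 2 / (1 - x)) := by rw [Finset.sum_const, nsmul_eq_mul]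
      _ ≤ 2 ^ (κ * D) * (K ^ 2 / (1 - x)) := by
          apply mul_le_mul_of_nonneg_right
          · have h1 : (((Finset.range (κ * D)).powerset).filter
                (fun C => D ≤ C.card ∧ 0 ∈ C)).card ≤ 2 ^ (κ * D) := by
              refine le_trans (Finset.card_filter_le _ _) ?_
              rw [Finset.card_powerset, Finset.card_range]
            exact_mod_cast h1
          · have : 0 < 1 - x := by linarith
            positivity
  calc _ ≤ (2 : ℝ) ^ (κ * D) + 2 ^ (κ * D) * (K ^ 2 / (1 - x)) := add_le_add hsmall hbig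
    _ = _ := by ring

end Pool.C4
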