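import Pool.Agent.Lib.MP_f302e8_gs.Lower

/-!
Problem MP_f302e8_co (C4, helper87): Kunz coordinates of a sparse gapset; the upper bound.
-/

set_option autoImplicit false

namespace Pool.C4

open Finset

/-- the multiplicity: the least positive non-gap -/
noncomputable def mlt (G : Finset ℕ) : ℕ := sInf {n | 0 < n ∧ n ∉ G}

/-- Kunz coordinate -/
noncomputable def kz (G : Finset ℕ) (m i : ℕ) : ℕ := sInf {a | i + a * m ∉ G}

theorem le_sup_id {G : Finset ℕ} {z : ℕ} (h : z ∈ G) : z ≤ G.sup id := Finset.le_sup (f := id) h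

theorem mlt_spec (G : Finset ℕ) : 0 < mlt G ∧ mlt G ∉ G := by
  have : ({n | 0 < n ∧ n ∉ G} : Set ℕ).Nonempty :=
    ⟨G.sup id + 1, Nat.succ_pos _, fun h => by have := le_sup_id h; omega⟩
  exact Nat.sInf_mem this

theorem mem_of_lt_mlt {G : Finset ℕ} {n : ℕ} (h0 : 0 < n) (h : n < mlt G) : n ∈ G := by
  by_contra hn
  exact Nat.notMem_of_lt_sInf h ⟨h0, hn⟩

theorem kz_iff {G : Finset ℕ} (hG : IsGapset G) {i a : ℕ} (hi : 0 < i) :
    i + a * mlt G ∈ G ↔ a < kz G (mlt G) i := by
  obtain ⟨hm0, hm⟩ := mlt_spec G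
  have hne : ({a | i + a * mlt G ∉ G} : Set ℕ).Nonempty := by
    refine ⟨G.sup id + 1, fun h => ?_⟩
    have := le_sup_id h
    nlinarith
  constructor
  · intro h
    by_contra hlt
    push Not at hlt
    -- all larger indices are out
    have hout : ∀ b, kz G (mlt G) i ≤ b → i + b * mlt G ∉ G := by
      intro b hb
      induction b, hb using Nat.le_induction with
      | base => exact Nat.sInf_mem hne
      | succ b _ ih =>
        intro hmem
        have := hG.2 (i + b * mlt G) (mlt G) (by omega) hm0 (by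
          rwa [show i + b * mlt G + mlt G = i + (b + 1) * mlt G by ring])
        rcases this with h1 | h1
        · exact ih h1
        · exact hm h1
    exact hout a hlt h
  · intro h
    by_contra hn
    exact Nat.notMem_of_lt_sInf h hn

theorem mul_notMem {G : Finset ℕ} (hG : IsGapset G) (b : ℕ) : b * mlt G ∉ G := by
  obtain ⟨hm0, hm⟩ := mlt_spec G
  induction b with
  | zero => simpa using hG.1
  | succ b ih =>
    intro h
    by_cases hb : b = 0
    · subst hb
      simp at h
      exact hm h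
    · have := hG.2 (b * mlt G) (mlt G) (Nat.mul_pos (by omega) hm0) hm0 (by
        rwa [show b * mlt G + mlt G = (b + 1) * mlt G by ring])
      rcases this with h1 | h1
      · exact ih h1
      · exact hm h1

/-- reflection -/
theorem refl_rule {G : Finset ℕ} (hG : IsGapset G) {u v p : ℕ} (hu : 0 < u) (hv : 0 < v)
    (h : u + v + p * mlt G ∈ G) : p + 1 ≤ kz G (mlt G) u + kz G (mlt G) v := by
  by_contra hlt
  push Not at hlt
  set a := kz G (mlt G) u with ha
  have hap : a ≤ p := by omega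
  have hsplit : u + v + p * mlt G = (u + a * mlt G) + (v + (p - a) * mlt G) := by
    have : p = a + (p - a) := by omega
    calc u + v + p * mlt G = u + v + (a + (p - a)) * mlt G := by rw [← this]
      _ = _ := by ring
  rw [hsplit] at h
  rcases hG.2 _ _ (by omega) (by omega) h with h1 | h1
  · rw [kz_iff hG hu] at h1
    omega
  · rw [kz_iff hG hv] at h1
    omega

theorem one_mem {G : Finset ℕ} (hG : IsGapset G) (hne : G.Nonempty) : 1 ∈ G := by
  by_contra h1
  have hall : ∀ n, n ∉ G := by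
    intro n
    induction n with
    | zero => exact hG.1
    | succ n ih =>
      intro h
      by_cases hn : n = 0
      · subst hn; exact h1 h
      · rcases hG.2 n 1 (by omega) one_pos h with h2 | h2
        · exact ih h2
        · exact h1 h2
  obtain ⟨z, hz⟩ := hne
  exact hall z hz

/-- density -/
theorem density {κ : ℕ} {G : Finset ℕ} (hG : IsGapset G) (hs : Sparse κ G) (hκ : 1 ≤ κ) {n : ℕ}
    (h1 : 1 ≤ n) (hn : n ≤ G.sup id) (hne : G.Nonempty) : ∃ z ∈ G, n ≤ z ∧ z < n + κ := by
  classical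
  have hsup : G.sup id ∈ G := by
    obtain ⟨b, hb, hb'⟩ := Finset.exists_mem_eq_sup G hne id
    rw [hb']; exact hb
  have hne1 : (G.filter (fun z => n ≤ z)).Nonempty := ⟨_, Finset.mem_filter.2 ⟨hsup, hn⟩⟩
  set b := (G.filter (fun z => n ≤ z)).min' hne1 with hb
  have hbm : b ∈ G.filter (fun z => n ≤ z) := Finset.min'_mem _ _
  rw [Finset.mem_filter] at hbm
  by_cases hbn : b = n
  · exact ⟨b, hbm.1, hbm.2, by omega⟩
  · have hn1 : 1 < n := by
      by_contra hcon
      have hn1 : n = 1 := by omega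
      have : b ≤ 1 := Finset.min'_le _ _ (Finset.mem_filter.2 ⟨one_mem hG hne, by omega⟩)
      omega
    have hne2 : (G.filter (fun z => z < n)).Nonempty :=
      ⟨1, Finset.mem_filter.2 ⟨one_mem hG hne, hn1⟩⟩
    set a := (G.filter (fun z => z < n)).max' hne2 with ha
    have ham : a ∈ G.filter (fun z => z < n) := Finset.max'_mem _ _
    rw [Finset.mem_filter] at ham
    have hcons : Consec G a b := by
      refine ⟨ham.1, hbm.1, by omega, ?_⟩
      intro c hc hcc
      by_cases hcn : c < n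
      · have : c ≤ a := Finset.le_max' _ _ (Finset.mem_filter.2 ⟨hc, hcn⟩)
        omega
      · have : b ≤ c := Finset.min'_le _ _ (Finset.mem_filter.2 ⟨hc, by omega⟩)
        omega
    have := hs a b hcons
    exact ⟨b, hbm.1, hbm.2, by omega⟩

/-- the word of `n` Kunz coordinates after position `s` -/
noncomputable def word (G : Finset ℕ) (m s n : ℕ) : Fin n → ℕ := fun i => kz G m (s + 1 + i)

theorem card_eq {G : Finset ℕ} (hG : IsGapset G) :
    G.card = ∑ i ∈ Finset.range (mlt G - 1), kz G (mlt G) (i + 1) := by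
  classical
  obtain ⟨hm0, hm⟩ := mlt_spec G
  set m := mlt G with hmdef
  have h1 : G.card = ((Finset.range (m - 1)).sigma (fun i => Finset.range (kz G m (i + 1)))).card := by
    apply Finset.card_nbij' (fun z => (⟨z % m - 1, z / m⟩ : (_ : ℕ) × ℕ))
      (fun p => p.1 + 1 + p.2 * m)
    · intro z hz
      have hr : z % m ≠ 0 := by
        intro h0
        apply mul_notMem hG (z / m)
        rw [← hmdef, Nat.div_mul_cancel (Nat.dvd_of_mod_eq_zero h0)]
        exact hz
      have hlt : z % m < m := Nat.mod_lt _ hm0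
      simp only [Finset.coe_sigma, Set.mem_sigma_iff, Finset.mem_coe, Finset.mem_range]
      refine ⟨by omega, ?_⟩
      rw [show z % m - 1 + 1 = z % m by omega, hmdef, ← kz_iff hG (by rw [← hmdef]; omega), ← hmdef]
      rw [Nat.mod_add_div' z m]
      exact hz
    · rintro ⟨i, a⟩ h
      simp only [Finset.coe_sigma, Set.mem_sigma_iff, Finset.mem_coe, Finset.mem_range] at h
      have := (kz_iff hG (i := i + 1) (a := a) (by omega)).2 h.2
      exact this
    · intro z hz
      have hr : z % m ≠ 0 := by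
        intro h0
        apply mul_notMem hG (z / m)
        rw [← hmdef, Nat.div_mul_cancel (Nat.dvd_of_mod_eq_zero h0)]
        exact hz
      show z % m - 1 + 1 + z / m * m = z
      rw [show z % m - 1 + 1 = z % m by omega]
      exact Nat.mod_add_div' z m
    · rintro ⟨i, a⟩ h
      simp only [Finset.coe_sigma, Set.mem_sigma_iff, Finset.mem_coe, Finset.mem_range] at h
      have hmod : (i + 1 + a * m) % m = i + 1 := by
        rw [Nat.add_mul_mod_self_right, Nat.mod_eq_of_lt (by omega)]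
      have hdiv : (i + 1 + a * m) / m = a := by
        rw [Nat.add_mul_div_right _ _ hm0, Nat.div_eq_of_lt (by omega), zero_add]
      show (⟨(i + 1 + a * m) % m - 1, (i + 1 + a * m) / m⟩ : (_ : ℕ) × ℕ) = ⟨i, a⟩
      rw [hmod, hdiv]
      rfl
  rw [h1, Finset.card_sigma]
  simp

/-- all the data of a pure sparse gapset with `κ ≥ 2` -/
structure Data (κ D : ℕ) (G : Finset ℕ) (C : Finset ℕ) (q n1 n2 : ℕ) : Prop where
  hq : 2 ≤ q
  hm : mlt G = n1 + n2 + 2
  hF : G.sup id = (q - 1) * (n1 + n2 + 2) + (n1 + 1)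
  hC : C = (Finset.range (κ * D)).filter (fun c => G.sup id - c ∈ G)

theorem kz_le {G : Finset ℕ} (hG : IsGapset G) {i a : ℕ} (hi : 0 < i)
    (h : G.sup id < i + a * mlt G) : kz G (mlt G) i ≤ a := by
  by_contra hlt
  push Not at hlt
  have := (kz_iff hG hi).2 hlt
  have := le_sup_id this
  omega

section
variable {κ D : ℕ} {G C : Finset ℕ} {q n1 n2 : ℕ}

theorem Data.kz_top (hd : Data κ D G C q n1 n2) (hG : IsGapset G) (hne : G.Nonempty) :
    kz G (mlt G) (n1 + 1) = q := by
  obtain ⟨hq, hm, hF, hC⟩ := hd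
  have hsup : G.sup id ∈ G := by
    obtain ⟨b, hb, hb'⟩ := Finset.exists_mem_eq_sup G hne id
    rw [hb']; exact hb
  obtain ⟨p, rfl⟩ : ∃ p, q = p + 1 := ⟨q - 1, by omega⟩
  apply le_antisymm
  · apply kz_le hG (by omega)
    rw [hF, hm, show p + 1 - 1 = p by omega]
    nlinarith
  · have h : n1 + 1 + p * mlt G ∈ G := by
      rw [hm]
      rw [hF, show p + 1 - 1 = p by omega] at hsup
      rwa [show n1 + 1 + p * (n1 + n2 + 2) = p * (n1 + n2 + 2) + (n1 + 1) by ring]
    have := (kz_iff hG (by omega)).1 h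
    omega

theorem Data.word1 (hd : Data κ D G C q n1 n2) (hG : IsGapset G) (hne : G.Nonempty)
    (hs : Sparse κ G) (hκ : 1 ≤ κ) : word G (mlt G) 0 n1 ∈ words κ C q n1 := by
  classical
  obtain ⟨hq, hm, hF, hC⟩ := hd
  obtain ⟨p, rfl⟩ : ∃ p, q = p + 1 := ⟨q - 1, by omega⟩
  rw [show p + 1 - 1 = p by omega] at hF
  have hup : ∀ i, 0 < i → kz G (mlt G) i ≤ p + 1 := by
    intro i hi
    apply kz_le hG hi
    rw [hF, hm]
    nlinarith
  simp only [words, Finset.mem_filter, Fintype.mem_piFinset, Finset.mem_Icc]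
  refine ⟨fun i => ⟨?_, hup _ (by omega)⟩, ?_, ?_⟩
  · have h : (0 + 1 + (i : ℕ)) + 0 * mlt G ∈ G := by
      rw [zero_mul, add_zero]
      apply mem_of_lt_mlt (by omega)
      have := i.2
      omega
    exact (kz_iff hG (by omega)).1 h
  · intro i j c hc hij
    rw [hC, Finset.mem_filter] at hc
    have h : (0 + 1 + (i : ℕ)) + (0 + 1 + (j : ℕ)) + p * mlt G ∈ G := by
      have := hc.2
      rw [hF] at this
      rw [hm]
      rwa [show (0 + 1 + (i : ℕ)) + (0 + 1 + (j : ℕ)) + p * (n1 + n2 + 2) =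
        p * (n1 + n2 + 2) + (n1 + 1) - c by omega]
    exact refl_rule hG (by omega) (by omega) h
  · intro a ha
    obtain ⟨z, hz, h1, h2⟩ := density hG hs hκ (n := a + 1 + p * mlt G) (by omega) (by
      rw [hF, hm]; nlinarith) hne
    have hlt : z - (a + 1 + p * mlt G) < κ := by omega
    refine ⟨⟨a + (z - (a + 1 + p * mlt G)), by omega⟩, by simp, ?_, ?_⟩
    · show a + (z - (a + 1 + p * mlt G)) < a + κ
      omega
    · show kz G (mlt G) (0 + 1 + (a + (z - (a + 1 + p * mlt G)))) = p + 1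
      apply le_antisymm (hup _ (by omega))
      have h : 0 + 1 + (a + (z - (a + 1 + p * mlt G))) + p * mlt G ∈ G := by
        rwa [show 0 + 1 + (a + (z - (a + 1 + p * mlt G))) + p * mlt G = z by omega]
      exact (kz_iff hG (by omega)).1 h

theorem Data.word2 (hd : Data κ D G C q n1 n2) (hG : IsGapset G) (hne : G.Nonempty)
    (hs : Sparse κ G) (hκ : 1 ≤ κ) : word G (mlt G) (n1 + 1) n2 ∈ words κ C (q - 1) n2 := by
  classical
  obtain ⟨hq, hm, hF, hC⟩ := hd
  obtain ⟨p, rfl⟩ : ∃ p, q = p + 2 := ⟨q - 2, by omega⟩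
  rw [show p + 2 - 1 = p + 1 by omega] at hF ⊢
  have hup : ∀ i, n1 + 1 < i → kz G (mlt G) i ≤ p + 1 := by
    intro i hi
    apply kz_le hG (by omega)
    rw [hF, hm]
    nlinarith
  simp only [words, Finset.mem_filter, Fintype.mem_piFinset, Finset.mem_Icc]
  refine ⟨fun i => ⟨?_, hup _ (by omega)⟩, ?_, ?_⟩
  · have h : (n1 + 1 + 1 + (i : ℕ)) + 0 * mlt G ∈ G := by
      rw [zero_mul, add_zero]
      apply mem_of_lt_mlt (by omega)
      have := i.2
      omega
    exact (kz_iff hG (by omega)).1 h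
  · intro i j c hc hij
    rw [hC, Finset.mem_filter] at hc
    have h : (n1 + 1 + 1 + (i : ℕ)) + (n1 + 1 + 1 + (j : ℕ)) + p * mlt G ∈ G := by
      have := hc.2
      rw [hF] at this
      rw [hm]
      rwa [show (n1 + 1 + 1 + (i : ℕ)) + (n1 + 1 + 1 + (j : ℕ)) + p * (n1 + n2 + 2) =
        (p + 1) * (n1 + n2 + 2) + (n1 + 1) - c by
          rw [show (p + 1) * (n1 + n2 + 2) = p * (n1 + n2 + 2) + (n1 + n2 + 2) by ring]
          omega]
    exact refl_rule hG (by omega) (by omega) h
  · intro a ha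
    obtain ⟨z, hz, h1, h2⟩ := density hG hs hκ (n := n1 + 1 + 1 + a + p * mlt G) (by omega) (by
      rw [hF, hm]; nlinarith) hne
    refine ⟨⟨a + (z - (n1 + 1 + 1 + a + p * mlt G)), by omega⟩, by simp, ?_, ?_⟩
    · show a + (z - (n1 + 1 + 1 + a + p * mlt G)) < a + κ
      omega
    · show kz G (mlt G) (n1 + 1 + 1 + (a + (z - (n1 + 1 + 1 + a + p * mlt G)))) = p + 1
      apply le_antisymm (hup _ (by omega))
      have h : n1 + 1 + 1 + (a + (z - (n1 + 1 + 1 + a + p * mlt G))) + p * mlt G ∈ G := by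
        rwa [show n1 + 1 + 1 + (a + (z - (n1 + 1 + 1 + a + p * mlt G))) + p * mlt G = z by omega]
      exact (kz_iff hG (by omega)).1 h

theorem Data.card (hd : Data κ D G C q n1 n2) (hG : IsGapset G) (hne : G.Nonempty) :
    G.card = q + ∑ i, word G (mlt G) 0 n1 i + ∑ i, word G (mlt G) (n1 + 1) n2 i := by
  have htop := hd.kz_top hG hne
  have hm := hd.hm
  rw [card_eq hG, show mlt G - 1 = n1 + (1 + n2) by omega, Finset.sum_range_add,
    Finset.sum_range_add]
  simp only [Finset.sum_range_one, add_zero]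
  rw [htop]
  have e1 : ∑ i ∈ Finset.range n1, kz G (mlt G) (i + 1) = ∑ i, word G (mlt G) 0 n1 i := by
    rw [Finset.sum_range]
    apply Finset.sum_congr rfl
    intro i _
    show kz G (mlt G) (i + 1) = kz G (mlt G) (0 + 1 + i)
    congr 1; omega
  have e2 : ∑ i ∈ Finset.range n2, kz G (mlt G) (n1 + (1 + i) + 1) =
      ∑ i, word G (mlt G) (n1 + 1) n2 i := by
    rw [Finset.sum_range]
    apply Finset.sum_congr rfl
    intro i _
    show kz G (mlt G) (n1 + (1 + i) + 1) = kz G (mlt G) (n1 + 1 + 1 + i)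
    congr 1; omega
  rw [e1, e2]
  ring

theorem Data.inj {G' : Finset ℕ} (hd : Data κ D G C q n1 n2) (hd' : Data κ D G' C q n1 n2)
    (hG : IsGapset G) (hG' : IsGapset G') (hne : G.Nonempty) (hne' : G'.Nonempty)
    (h1 : word G (mlt G) 0 n1 = word G' (mlt G') 0 n1)
    (h2 : word G (mlt G) (n1 + 1) n2 = word G' (mlt G') (n1 + 1) n2) : G = G' := by
  have hk : ∀ r, 0 < r → r < n1 + n2 + 2 → kz G (mlt G) r = kz G' (mlt G') r := by
    intro r hr0 hr
    rcases lt_trichotomy r (n1 + 1) with h | h | h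
    · have := congrFun h1 ⟨r - 1, by omega⟩
      simp only [word] at this
      rwa [show 0 + 1 + (r - 1) = r by omega] at this
    · subst h
      rw [hd.kz_top hG hne, hd'.kz_top hG' hne']
    · have := congrFun h2 ⟨r - (n1 + 2), by omega⟩
      simp only [word] at this
      rwa [show n1 + 1 + 1 + (r - (n1 + 2)) = r by omega] at this
  have hmm : mlt G = mlt G' := by rw [hd.hm, hd'.hm]
  have hm := hd.hm
  ext z
  by_cases hr : z % mlt G = 0
  · have h1 : z ∉ G := by
      have := mul_notMem hG (z / mlt G)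
      rwa [Nat.div_mul_cancel (Nat.dvd_of_mod_eq_zero hr)] at this
    have h2 : z ∉ G' := by
      have := mul_notMem hG' (z / mlt G')
      rwa [Nat.div_mul_cancel (Nat.dvd_of_mod_eq_zero (by rw [← hmm]; exact hr))] at this
    exact ⟨fun h => absurd h h1, fun h => absurd h h2⟩
  · have hlt : z % mlt G < mlt G := Nat.mod_lt _ (mlt_spec G).1
    have e1 : z ∈ G ↔ z / mlt G < kz G (mlt G) (z % mlt G) := by
      rw [← kz_iff hG (by omega), Nat.mod_add_div']
    have e2 : z ∈ G' ↔ z / mlt G' < kz G' (mlt G') (z % mlt G') := by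
      rw [← kz_iff hG' (by rw [← hmm]; omega), Nat.mod_add_div']
    rw [e1, e2, ← hmm, hk _ (by omega) (by omega), hmm]

end

end Pool.C4
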